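import Mathlib

open Finset

namespace Pool.Agent.Results.MP_432bca_pr.Nonsingular

/-- `G_X(s) = ∑_k s^k P(X = k)` for the law `q` of `X`. -/
noncomputable def G (q : ℤ → ℝ) (s : ℂ) : ℂ := ∑' k : ℤ, (q k : ℂ) * s ^ k
/-- `F_X(k) = P(X ≤ k)`. -/
noncomputable def F (q : ℤ → ℝ) (k : ℤ) : ℝ := ∑' y : ℤ, if y ≤ k then q y else 0
/-- Generating function of the sum of independent variables with laws `p 0, …, p (j-1)`. -/
noncomputable def u (p : ℕ → ℤ → ℝ) (j : ℕ) (s : ℂ) : ℂ := ∏ l ∈ range j, G (p l) s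
/-- The weight `w_j`; index `0` plays the role of the index `N` of the problem. -/
noncomputable def w (p : ℕ → ℤ → ℝ) (m : ℕ → ℤ) (j : ℕ) (s : ℂ) : ℂ := s ^ (m j) * u p j s
/-- `φ_{j,c}`. -/
noncomputable def phi (p : ℕ → ℤ → ℝ) (m : ℕ → ℤ) (j c : ℕ) (s : ℂ) : ℂ :=
  w p m j s * ∑ r ∈ range ((-m j).toNat - c), s ^ (r + c) * (F (p j) (m j + r) : ℂ)
/-- `ν_{j,c}`. -/
noncomputable def nu (p : ℕ → ℤ → ℝ) (m : ℕ → ℤ) (j c : ℕ) : ℝ :=
  ∑ r ∈ range ((-m j).toNat - c), F (p j) (m j + r)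

/-- Row indices: a pair (zero `α ∈ Z`, order `t < k α`), or `none` for the last row. -/
abbrev Rows (Z : Finset ℂ) (k : ℂ → ℕ) : Type := Option (Σ α : Z, Fin (k α))
/-- Column indices: pairs `(j, c)` with `j < N` and `0 ≤ c ≤ -m_j - 1`. -/
abbrev Cols (N : ℕ) (m : ℕ → ℤ) : Type := Σ j : Fin N, Fin (-m j).toNat
/-- The matrix `A` of the problem. -/
noncomputable def A (N : ℕ) (p : ℕ → ℤ → ℝ) (m : ℕ → ℤ) (Z : Finset ℂ) (k : ℂ → ℕ) :
    Matrix (Rows Z k) (Cols N m) ℂ :=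
  fun r c => match r with
    | none => (nu p m c.1 c.2 : ℂ)
    | some a => iteratedDeriv a.2 (phi p m c.1 c.2) a.1


lemma hs_congr {E : Type*} [AddCommMonoid E] [TopologicalSpace E] {f g : ℤ → E} {a b : E}
    (h : HasSum f a) (h1 : ∀ y, g y = f y) (h2 : b = a) : HasSum g b := by
  rw [funext h1, h2]; exact h


lemma core_real (N : ℕ) (hN : 0 < N) (p : ℕ → ℤ → ℝ) (m : ℕ → ℤ) (μ : ℕ → ℝ)
    (hp0 : ∀ j < N, ∀ k, 0 ≤ p j k) (hp1 : ∀ j < N, HasSum (p j) 1)
    (hlow : ∀ j < N, ∀ k < m j, p j k = 0)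
    (hμ : ∀ j < N, HasSum (fun k : ℤ => (k : ℝ) * p j k) (μ j)) (hneg : ∑ j ∈ range N, μ j < 0)
    (h : ℕ → ℤ → ℝ) (B : ℝ) (hB : ∀ j < N, ∀ x, (m j ≤ x ∨ 0 ≤ x) → h j x ≤ B)
    (hper : ∀ x, 0 ≤ x → h N x = h 0 x)
    (hrec : ∀ j < N, ∀ x, 0 ≤ x → HasSum (fun y => p j y * h j (x + y)) (h (j + 1) x))
    (hbd : ∀ j < N, ∀ x, m j ≤ x → x < 0 → h j x = 0) :
    ∀ x, 0 ≤ x → h 0 x ≤ 0 := by
  set δ : ℝ := -(∑ j ∈ range N, μ j) / N with hδ
  have hNpos : (0 : ℝ) < N := by exact_mod_cast hN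
  have hδpos : 0 < δ := div_pos (by linarith) hNpos
  obtain ⟨A, hA⟩ : ∃ A : ℝ, ∀ j < N, -(m j : ℝ) - ∑ l ∈ range j, (μ l + δ) ≤ A := by
    obtain ⟨A, hA⟩ := (Set.finite_lt_nat N).image
      (fun j => -(m j : ℝ) - ∑ l ∈ range j, (μ l + δ)) |>.bddAbove
    exact ⟨A, fun j hj => hA ⟨j, hj, rfl⟩⟩
  obtain ⟨A', hA'⟩ : ∃ A : ℝ, ∀ j < N, - ∑ l ∈ range j, (μ l + δ) ≤ A := by
    obtain ⟨A, hA⟩ := (Set.finite_lt_nat N).image
      (fun j => - ∑ l ∈ range j, (μ l + δ)) |>.bddAbove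
    exact ⟨A, fun j hj => hA ⟨j, hj, rfl⟩⟩
  let V : ℕ → ℤ → ℝ := fun j x => x + (max A A' + ∑ l ∈ range j, (μ l + δ))
  have hV : ∀ j < N, ∀ x, (m j ≤ x ∨ 0 ≤ x) → 0 ≤ V j x := by
    intro j hj x hx
    have h1 := hA j hj
    have h2 := hA' j hj
    have h3 := le_max_left A A'
    have h4 := le_max_right A A'
    rcases hx with hx | hx
    · have : (m j : ℝ) ≤ x := by exact_mod_cast hx
      simp only [V]; linarith
    · have : (0 : ℝ) ≤ x := by exact_mod_cast hx
      simp only [V]; linarith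
  have hVN : ∀ x, V N x = V 0 x := by
    intro x
    have : ∑ l ∈ range N, (μ l + δ) = 0 := by
      rw [sum_add_distrib, sum_const, card_range, nsmul_eq_mul, hδ]; field_simp; ring
    simp [V, this]
  have key : ∀ ε > 0, ∀ j < N, ∀ x, (m j ≤ x ∨ 0 ≤ x) → h j x ≤ ε * V j x := by
    intro ε hε
    let S : Set ℝ := {v | ∃ j < N, ∃ x, (m j ≤ x ∨ 0 ≤ x) ∧ v = h j x - ε * V j x}
    have hS : BddAbove S := ⟨B, by
      rintro v ⟨j, hj, x, hx, rfl⟩
      have := hB j hj x hx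
      have := mul_nonneg hε.le (hV j hj x hx)
      linarith⟩
    have hne : S.Nonempty := ⟨_, 0, hN, 0, Or.inr le_rfl, rfl⟩
    have hle : ∀ j < N, ∀ x, (m j ≤ x ∨ 0 ≤ x) → h j x - ε * V j x ≤ sSup S :=
      fun j hj x hx => le_csSup hS ⟨j, hj, x, hx, rfl⟩
    have step : ∀ j < N, ∀ x, 0 ≤ x → h (j + 1) x - ε * V (j + 1) x ≤ sSup S - ε * δ := by
      intro j hj x hx
      have h2 : HasSum (fun y : ℤ => p j y * (sSup S + ε * V j (x + y)))
          ((sSup S + ε * V j x) * 1 + ε * μ j) := by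
        refine hs_congr (((hp1 j hj).mul_left (sSup S + ε * V j x)).add ((hμ j hj).mul_left ε))
          (fun y => ?_) rfl
        simp only [V]; push_cast; ring
      have h3 := hasSum_le (fun y => ?_) (hrec j hj x hx) h2
      · have : V (j + 1) x = V j x + (μ j + δ) := by simp only [V, sum_range_succ]; ring
        rw [this]; linarith
      · by_cases hy : y < m j
        · simp [hlow j hj y hy]
        · refine mul_le_mul_of_nonneg_left ?_ (hp0 j hj y)
          have := hle j hj (x + y) (Or.inl (by omega))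
          linarith
    have hM : sSup S ≤ max (sSup S - ε * δ) 0 := by
      refine csSup_le hne ?_
      rintro v ⟨j, hj, x, hx, rfl⟩
      by_cases hx0 : 0 ≤ x
      · refine le_max_of_le_left ?_
        rcases j with _ | j
        · have := step (N - 1) (by omega) x hx0
          rw [show N - 1 + 1 = N by omega, hper x hx0, hVN] at this
          exact this
        · exact step j (by omega) x hx0
      · refine le_max_of_le_right ?_
        have hx' : m j ≤ x := by omega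
        rw [hbd j hj x hx' (by omega)]
        have := mul_nonneg hε.le (hV j hj x hx)
        linarith
    have hM0 : sSup S ≤ 0 := by
      have := mul_pos hε hδpos
      rcases le_max_iff.1 hM with h | h <;> linarith
    intro j hj x hx
    have := hle j hj x hx
    linarith
  intro x hx
  have hVx := hV 0 hN x (Or.inr hx)
  refine le_of_forall_pos_le_add fun η hη => ?_
  have h1 := key (η / (V 0 x + 1)) (by positivity) 0 hN x (Or.inr hx)
  have h2 : η / (V 0 x + 1) * V 0 x ≤ η := by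
    rw [div_mul_eq_mul_div, div_le_iff₀ (by positivity)]; nlinarith
  linarith

lemma core (N : ℕ) (hN : 0 < N) (p : ℕ → ℤ → ℝ) (m : ℕ → ℤ) (μ : ℕ → ℝ)
    (hp0 : ∀ j < N, ∀ k, 0 ≤ p j k) (hp1 : ∀ j < N, HasSum (p j) 1)
    (hlow : ∀ j < N, ∀ k < m j, p j k = 0)
    (hμ : ∀ j < N, HasSum (fun k : ℤ => (k : ℝ) * p j k) (μ j)) (hneg : ∑ j ∈ range N, μ j < 0)
    (h : ℕ → ℤ → ℂ) (B : ℝ) (hB : ∀ j < N, ∀ x, (m j ≤ x ∨ 0 ≤ x) → ‖h j x‖ ≤ B)
    (hper : ∀ x, 0 ≤ x → h N x = h 0 x)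
    (hrec : ∀ j < N, ∀ x, 0 ≤ x → HasSum (fun y => (p j y : ℂ) * h j (x + y)) (h (j + 1) x))
    (hbd : ∀ j < N, ∀ x, m j ≤ x → x < 0 → h j x = 0) :
    ∀ x, 0 ≤ x → h 0 x = 0 := by
  intro x hx
  set a := (starRingEnd ℂ) (h 0 x) with ha
  have := core_real N hN p m μ hp0 hp1 hlow hμ hneg (fun j y => (a * h j y).re) (‖a‖ * B)
    (fun j hj y hy => (Complex.re_le_norm _).trans (by
      rw [norm_mul]; exact mul_le_mul_of_nonneg_left (hB j hj y hy) (norm_nonneg _)))
    (fun y hy => by simp [hper y hy])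
    (fun j hj y hy => by
      have := Complex.hasSum_re ((hrec j hj y hy).mul_left a)
      convert this using 2
      rw [mul_left_comm, Complex.re_ofReal_mul])
    (fun j hj y h1 h2 => by simp [hbd j hj y h1 h2]) x hx
  simp only [ha] at this
  rw [← Complex.normSq_eq_conj_mul_self, Complex.ofReal_re] at this
  exact Complex.normSq_eq_zero.1 (le_antisymm this (Complex.normSq_nonneg _))

def U (α : ℂ) : Set ℂ := {z | ‖α‖ / 2 < ‖z‖ ∧ ‖z‖ < 1}
def K (α : ℂ) : Set ℂ := {z | ‖α‖ / 2 ≤ ‖z‖ ∧ ‖z‖ ≤ 1}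
def Good (α : ℂ) (t : ℕ) : Prop := α ≠ 0 ∧ ‖α‖ ≤ 1 ∧ (t = 0 ∨ ‖α‖ < 1)

lemma U_open (α : ℂ) : IsOpen (U α) :=
  (isOpen_lt continuous_const continuous_norm).inter (isOpen_lt continuous_norm continuous_const)

lemma U_sub (α : ℂ) : U α ⊆ K α := fun _ hz => ⟨hz.1.le, hz.2.le⟩

lemma cd {α : ℂ} (h0 : α ≠ 0) (h1 : ‖α‖ < 1) {f : ℂ → ℂ} (hf : DifferentiableOn ℂ f (U α))
    (t : ℕ) : ContDiffAt ℂ t f α := by
  have : 0 < ‖α‖ := norm_pos_iff.2 h0
  exact (hf.analyticAt ((U_open α).mem_nhds ⟨by linarith, h1⟩)).contDiffAt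

lemma D_sub {α : ℂ} {t : ℕ} (hg : Good α t) {f g : ℂ → ℂ} (hf : DifferentiableOn ℂ f (U α))
    (hg' : DifferentiableOn ℂ g (U α)) :
    iteratedDeriv t (fun z => f z - g z) α = iteratedDeriv t f α - iteratedDeriv t g α := by
  rcases hg.2.2 with rfl | h
  · simp
  · exact iteratedDeriv_fun_sub (cd hg.1 h hf t) (cd hg.1 h hg' t)

lemma D_sum {α : ℂ} {t : ℕ} (hg : Good α t) {ι : Type*} (F : Finset ι) {f : ι → ℂ → ℂ}
    (hf : ∀ i, DifferentiableOn ℂ (f i) (U α)) :
    iteratedDeriv t (fun z => ∑ i ∈ F, f i z) α = ∑ i ∈ F, iteratedDeriv t (f i) α := by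
  rcases hg.2.2 with rfl | h
  · simp
  · exact iteratedDeriv_fun_sum fun i _ => cd hg.1 h (hf i) t

lemma D_van {α : ℂ} {t : ℕ} (hg : Good α t) {f g : ℂ → ℂ} (hf : DifferentiableOn ℂ f (U α))
    (hg' : DifferentiableOn ℂ g (U α)) (hv : ∀ i ≤ t, iteratedDeriv i f α = 0) :
    iteratedDeriv t (fun z => f z * g z) α = 0 := by
  rcases hg.2.2 with rfl | h
  · have := hv 0 le_rfl
    simp at this
    simp [this]
  · rw [iteratedDeriv_fun_mul (cd hg.1 h hf t) (cd hg.1 h hg' t)]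
    refine sum_eq_zero fun i hi => ?_
    rw [hv i (by simpa [Nat.lt_succ_iff] using hi)]; simp

lemma D_bound {α : ℂ} {t : ℕ} (hg : Good α t) : ∃ C : ℝ, 0 ≤ C ∧ ∀ (f : ℂ → ℂ) (M : ℝ),
    DifferentiableOn ℂ f (U α) → (∀ z ∈ K α, ‖f z‖ ≤ M) → ‖iteratedDeriv t f α‖ ≤ C * M := by
  have hpos : 0 < ‖α‖ := norm_pos_iff.2 hg.1
  rcases hg.2.2 with rfl | h
  · exact ⟨1, zero_le_one, fun f M _ hM => by
      simpa using hM α ⟨by linarith, hg.2.1⟩⟩
  · set R := min (‖α‖ / 4) ((1 - ‖α‖) / 2) with hR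
    have hR0 : 0 < R := lt_min (by linarith) (by linarith)
    have hsub : Metric.closedBall α R ⊆ U α := by
      intro z hz
      rw [Metric.mem_closedBall, dist_eq_norm] at hz
      have h1 := min_le_left (‖α‖ / 4) ((1 - ‖α‖) / 2)
      have h2 := min_le_right (‖α‖ / 4) ((1 - ‖α‖) / 2)
      have h3 := abs_norm_sub_norm_le z α
      rw [abs_le] at h3
      constructor <;> linarith [h3.1, h3.2]
    refine ⟨t.factorial / R ^ t, by positivity, fun f M hf hM => ?_⟩
    have := Complex.norm_iteratedDeriv_le_of_forall_mem_sphere_norm_le t hR0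
      (DifferentiableOn.diffContOnCl (by rw [closure_ball _ hR0.ne']; exact hf.mono hsub))
      (fun z hz => hM z (U_sub α (hsub (Metric.sphere_subset_closedBall hz))))
    rw [div_mul_eq_mul_div]; exact this

lemma zb {α : ℂ} (h0 : α ≠ 0) (h1 : ‖α‖ ≤ 1) {z : ℂ} (hz : z ∈ K α) {m k : ℤ} (hm : m ≤ 0)
    (hk : m ≤ k) : ‖z ^ k‖ ≤ (‖α‖ / 2) ^ m := by
  have hpos : 0 < ‖α‖ := norm_pos_iff.2 h0
  rw [norm_zpow]
  have hz0 : 0 < ‖z‖ := by linarith [hz.1]
  calc ‖z‖ ^ k ≤ ‖z‖ ^ m := zpow_le_zpow_right_of_le_one₀ hz0 hz.2 hk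
    _ ≤ (‖α‖ / 2) ^ m := by
      obtain ⟨n, rfl⟩ := Int.exists_eq_neg_ofNat hm
      rw [zpow_neg, zpow_neg, zpow_natCast, zpow_natCast]
      exact inv_anti₀ (by positivity) (pow_le_pow_left₀ (by positivity) hz.1 n)

lemma zd {α : ℂ} (k : ℤ) : DifferentiableOn ℂ (fun z : ℂ => z ^ k) (U α) := by
  intro z hz
  have : z ≠ 0 := by
    rintro rfl
    have := hz.1; simp at this; linarith [norm_nonneg α]
  exact (differentiableAt_zpow.2 (Or.inl this)).differentiableWithinAt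

lemma pw (i k : ℕ) (β : ℂ) :
    iteratedDeriv i (fun z => (z - β) ^ k) β = if i = k then (k.factorial : ℂ) else 0 := by
  have := congrFun (iteratedDeriv_comp_sub_const (n := i) (f := fun z : ℂ => z ^ k) (s := β)) β
  rw [this, sub_self, iteratedDeriv_fun_pow_zero]
  split_ifs <;> simp

lemma pw_mul (t k : ℕ) (htk : t ≤ k) (β : ℂ) (q : ℂ → ℂ) (hq : ContDiff ℂ ⊤ q) :
    iteratedDeriv t (fun z => (z - β) ^ k * q z) β
      = if t = k then (k.factorial : ℂ) * q β else 0 := by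
  rw [iteratedDeriv_fun_mul (by fun_prop) (hq.contDiffAt.of_le le_top)]
  simp only [pw]
  split_ifs with h
  · subst h
    rw [sum_eq_single t (fun i _ hi => by simp [hi]) (by simp)]
    simp
  · refine sum_eq_zero fun i hi => ?_
    have : i ≠ k := by simp at hi; omega
    simp [this]

lemma indep (Z : Finset ℂ) (k : ℂ → ℕ) (c : ℂ → ℕ → ℂ)
    (h : ∀ n : ℕ, ∑ α ∈ Z, ∑ t ∈ range (k α), c α t * iteratedDeriv t (fun z => z ^ n) α = 0) :
    ∀ α ∈ Z, ∀ t < k α, c α t = 0 := by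
  classical
  have hP : ∀ P : Polynomial ℂ,
      ∑ α ∈ Z, ∑ t ∈ range (k α), c α t * iteratedDeriv t (fun z => P.eval z) α = 0 := by
    intro P
    induction P using Polynomial.induction_on' with
    | add P Q hP hQ =>
      have : ∀ t (α : ℂ), iteratedDeriv t (fun z => (P + Q).eval z) α
          = iteratedDeriv t (fun z => P.eval z) α + iteratedDeriv t (fun z => Q.eval z) α := by
        intro t α
        simp only [Polynomial.eval_add]
        exact iteratedDeriv_fun_add (P.differentiable.contDiff.contDiffAt)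
          (Q.differentiable.contDiff.contDiffAt)
      simp only [this, mul_add, sum_add_distrib, hP, hQ, add_zero]
    | monomial n a =>
      simp only [Polynomial.eval_monomial, iteratedDeriv_const_mul_field]
      have := congrArg (a * ·) (h n)
      simp only [mul_sum, mul_zero] at this
      rw [← this]
      exact sum_congr rfl fun _ _ => sum_congr rfl fun _ _ => by ring
  intro α hα
  suffices H : ∀ d t, t + d + 1 = k α → ∀ s, t ≤ s → s < k α → c α s = 0 by
    intro t ht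
    exact H (k α - t - 1) t (by omega) t le_rfl ht
  have main : ∀ t < k α, (∀ s, t < s → s < k α → c α s = 0) → c α t = 0 := by
    intro t ht hs
    have h1 := hP ((Polynomial.X - Polynomial.C α) ^ t *
      ∏ β ∈ Z.erase α, (Polynomial.X - Polynomial.C β) ^ k β)
    simp only [Polynomial.eval_mul, Polynomial.eval_pow, Polynomial.eval_sub, Polynomial.eval_X,
      Polynomial.eval_C, Polynomial.eval_prod] at h1
    rw [sum_eq_single_of_mem α hα, sum_eq_single_of_mem t (mem_range.2 ht),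
      pw_mul t t le_rfl α _ (by fun_prop), if_pos rfl] at h1
    · have h2 : (∏ β ∈ Z.erase α, (α - β) ^ k β) ≠ 0 :=
        prod_ne_zero_iff.2 fun β hβ => pow_ne_zero _ (sub_ne_zero.2 (ne_of_mem_erase hβ).symm)
      have h3 : (t.factorial : ℂ) ≠ 0 := by exact_mod_cast t.factorial_ne_zero
      simpa [h2, h3] using h1
    · intro s hs' hst
      rcases lt_or_gt_of_ne hst with hlt | hgt
      · rw [pw_mul s t hlt.le α _ (by fun_prop), if_neg hst, mul_zero]
      · rw [hs s hgt (mem_range.1 hs'), zero_mul]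
    · intro β hβ hne
      refine sum_eq_zero fun s hs' => ?_
      have hs'' := mem_range.1 hs'
      have : (fun z : ℂ => (z - α) ^ t * ∏ γ ∈ Z.erase α, (z - γ) ^ k γ) = fun z =>
          (z - β) ^ k β * ((z - α) ^ t * ∏ γ ∈ (Z.erase α).erase β, (z - γ) ^ k γ) := by
        funext z
        rw [← mul_prod_erase (Z.erase α) _ (mem_erase.2 ⟨hne, hβ⟩)]; ring
      rw [this, pw_mul s (k β) hs''.le β _ (by fun_prop), if_neg hs''.ne, mul_zero]
  intro d
  induction d with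
  | zero =>
    intro t ht s h1 h2
    exact main s h2 fun s' h3 h4 => by omega
  | succ d ih =>
    intro t ht s h1 h2
    exact main s h2 fun s' h3 h4 => ih (t + 1) (by omega) s' (by omega) h4


lemma tail {g : ℤ → ℂ} {n : ℤ → ℝ} {a : ℂ} {b : ℝ} (hg : HasSum g a) (hn : HasSum n b)
    (h : ∀ y, ‖g y‖ ≤ n y) (S : Finset ℤ) : ‖a - ∑ y ∈ S, g y‖ ≤ b - ∑ y ∈ S, n y := by
  have h1 : HasSum (fun y => if y ∈ S then g y else 0) (∑ y ∈ S, g y) := by
    have := hasSum_sum_of_ne_finset_zero (L := SummationFilter.unconditional ℤ) (f := fun y => if y ∈ S then g y else 0) (s := S)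
      (fun y hy => if_neg hy)
    rwa [sum_congr rfl (fun y hy => if_pos hy)] at this
  have h2 : HasSum (fun y => if y ∈ S then n y else 0) (∑ y ∈ S, n y) := by
    have := hasSum_sum_of_ne_finset_zero (L := SummationFilter.unconditional ℤ) (f := fun y => if y ∈ S then n y else 0) (s := S)
      (fun y hy => if_neg hy)
    rwa [sum_congr rfl (fun y hy => if_pos hy)] at this
  refine (hg.sub h1).norm_le_of_bounded (hn.sub h2) fun y => ?_
  split_ifs
  · simp
  · simpa using h y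

section
variable {q : ℤ → ℝ} {m0 : ℤ} (h0 : ∀ k, 0 ≤ q k) (h1 : HasSum q 1) (hl : ∀ k < m0, q k = 0)
  (hm : m0 ≤ 0) {α : ℂ} (ha0 : α ≠ 0) (ha1 : ‖α‖ ≤ 1)
include h0 h1 hl hm ha0 ha1

lemma term_le {z : ℂ} (hz : z ∈ K α) {x : ℤ} (hx : 0 ≤ x) (k : ℤ) :
    ‖(q k : ℂ) * z ^ (x + k)‖ ≤ q k * (‖α‖ / 2) ^ m0 := by
  by_cases hk : k < m0
  · simp [hl k hk]
  · rw [norm_mul, Complex.norm_real, Real.norm_of_nonneg (h0 k)]
    exact mul_le_mul_of_nonneg_left (zb ha0 ha1 hz hm (by omega)) (h0 k)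

lemma G_sum {z : ℂ} (hz : z ∈ K α) : HasSum (fun k : ℤ => (q k : ℂ) * z ^ k) (G q z) :=
  (Summable.of_norm_bounded (h1.mul_right ((‖α‖ / 2) ^ m0)).summable fun k => by
    simpa using term_le h0 h1 hl hm ha0 ha1 hz le_rfl k).hasSum

lemma G_le {z : ℂ} (hz : z ∈ K α) : ‖G q z‖ ≤ 1 * (‖α‖ / 2) ^ m0 :=
  (G_sum h0 h1 hl hm ha0 ha1 hz).norm_le_of_bounded (h1.mul_right _) fun k => by
    simpa using term_le h0 h1 hl hm ha0 ha1 hz le_rfl k

lemma G_diff : DifferentiableOn ℂ (G q) (U α) :=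
  Complex.differentiableOn_tsum_of_summable_norm (h1.mul_right ((‖α‖ / 2) ^ m0)).summable
    (fun k => (zd k).const_mul _) (U_open α) fun k z hz => by
      simpa using term_le h0 h1 hl hm ha0 ha1 (U_sub α hz) le_rfl k

lemma row_rec {t : ℕ} (hg : Good α t) {v : ℂ → ℂ} (hv : DifferentiableOn ℂ v (U α)) {M : ℝ}
    (hM : ∀ z ∈ K α, ‖v z‖ ≤ M) {x : ℤ} (hx : 0 ≤ x) :
    HasSum (fun y => (q y : ℂ) * iteratedDeriv t (fun s => v s * s ^ (x + y)) α)
      (iteratedDeriv t (fun s => v s * G q s * s ^ x) α) := by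
  obtain ⟨C, hC0, hC⟩ := D_bound hg
  have hGd := G_diff h0 h1 hl hm ha0 ha1
  have hb : ∀ S : Finset ℤ, ‖∑ y ∈ S, (q y : ℂ) * iteratedDeriv t (fun s => v s * s ^ (x + y)) α
      - iteratedDeriv t (fun s => v s * G q s * s ^ x) α‖
      ≤ C * (M * (1 * (‖α‖ / 2) ^ m0) - ∑ y ∈ S, M * (q y * (‖α‖ / 2) ^ m0)) := by
    intro S
    have hd : ∀ y : ℤ, DifferentiableOn ℂ (fun s => (q y : ℂ) * (v s * s ^ (x + y))) (U α) :=
      fun y => (hv.mul (zd _)).const_mul _
    have hd2 : DifferentiableOn ℂ (fun s => v s * G q s * s ^ x) (U α) := (hv.mul hGd).mul (zd _)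
    have hd3 : DifferentiableOn ℂ (fun s => ∑ y ∈ S, (q y : ℂ) * (v s * s ^ (x + y))) (U α) :=
      DifferentiableOn.fun_sum fun y _ => hd y
    simp only [← iteratedDeriv_const_mul_field]
    rw [← D_sum hg S hd, norm_sub_rev, ← D_sub hg hd2 hd3]
    refine hC _ _ (hd2.sub hd3) fun z hz => ?_
    have hz0 : z ≠ 0 := by
      rintro rfl
      have := hz.1; simp at this; linarith [norm_pos_iff.2 ha0]
    refine tail ?_ ((h1.mul_right ((‖α‖ / 2) ^ m0)).mul_left M) (fun y => ?_) S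
    · refine hs_congr ((G_sum h0 h1 hl hm ha0 ha1 hz).mul_left (v z * z ^ x)) (fun y => ?_) ?_
      · rw [zpow_add₀ hz0]; ring
      · ring
    · rw [mul_left_comm, norm_mul]
      exact mul_le_mul (hM z hz) (term_le h0 h1 hl hm ha0 ha1 hz hx y) (norm_nonneg _)
        ((norm_nonneg _).trans (hM z hz))
  have ht : Filter.Tendsto (fun S : Finset ℤ =>
      C * (M * (1 * (‖α‖ / 2) ^ m0) - ∑ y ∈ S, M * (q y * (‖α‖ / 2) ^ m0))) Filter.atTop
      (nhds (C * (M * (1 * (‖α‖ / 2) ^ m0) - M * (1 * (‖α‖ / 2) ^ m0)))) :=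
    (tendsto_const_nhds.sub ((h1.mul_right ((‖α‖ / 2) ^ m0)).mul_left M)).const_mul C
  rw [sub_self, mul_zero] at ht
  exact tendsto_iff_norm_sub_tendsto_zero.2 (squeeze_zero (fun _ => norm_nonneg _) hb ht)
end

lemma gen (N : ℕ) (hN : 0 < N) (p : ℕ → ℤ → ℝ) (m : ℕ → ℤ) (μ : ℕ → ℝ)
    (hp0 : ∀ j < N, ∀ k, 0 ≤ p j k) (hp1 : ∀ j < N, HasSum (p j) 1)
    (hlow : ∀ j < N, ∀ k < m j, p j k = 0) (hpos : ∀ j < N, 0 < p j (m j))
    (hm : ∀ j < N, m j ≤ 0)
    (hμ : ∀ j < N, HasSum (fun k : ℤ => (k : ℝ) * p j k) (μ j)) (hneg : ∑ j ∈ range N, μ j < 0)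
    (Z : Finset ℂ) (k : ℂ → ℕ) (hg : ∀ α ∈ Z, ∀ t < k α, Good α t)
    (hz : ∀ α ∈ Z, ∀ t < k α, iteratedDeriv t (fun s => u p N s - 1) α = 0)
    (c : ℂ → ℕ → ℂ)
    (hc : ∀ j < N, ∀ cc < (-m j).toNat,
      ∑ α ∈ Z, ∑ t ∈ range (k α), c α t * iteratedDeriv t (phi p m j cc) α = 0) :
    ∀ α ∈ Z, ∀ t < k α, c α t = 0 := by
  have hu : ∀ α : ℂ, α ≠ 0 → ‖α‖ ≤ 1 → ∀ j ≤ N, DifferentiableOn ℂ (u p j) (U α) ∧
      ∃ M, ∀ z ∈ K α, ‖u p j z‖ ≤ M := by
    intro α a0 a1 j
    induction j with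
    | zero =>
      intro _
      have : u p 0 = fun _ => 1 := by funext s; simp [u]
      rw [this]; exact ⟨differentiableOn_const _, 1, by simp⟩
    | succ j ih =>
      intro hj
      obtain ⟨d, M, hM⟩ := ih (by omega)
      have hj' : j < N := by omega
      have : u p (j + 1) = fun s => u p j s * G (p j) s := by funext s; simp [u, prod_range_succ]
      rw [this]
      refine ⟨d.mul (G_diff (hp0 j hj') (hp1 j hj') (hlow j hj') (hm j hj') a0 a1),
        M * (1 * (‖α‖ / 2) ^ m j), fun z hz => ?_⟩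
      rw [norm_mul]
      exact mul_le_mul (hM z hz) (G_le (hp0 j hj') (hp1 j hj') (hlow j hj') (hm j hj') a0 a1 hz)
        (norm_nonneg _) ((norm_nonneg _).trans (hM z hz))
  let h : ℕ → ℤ → ℂ := fun j x =>
    ∑ α ∈ Z, ∑ t ∈ range (k α), c α t * iteratedDeriv t (fun s => u p j s * s ^ x) α
  have hB1 : ∀ j < N, ∃ B : ℝ, ∀ x, m j ≤ x → ‖h j x‖ ≤ B := by
    intro j hj
    have : ∀ α ∈ Z, ∀ t < k α, ∃ B : ℝ, ∀ x, m j ≤ x →
        ‖iteratedDeriv t (fun s => u p j s * s ^ x) α‖ ≤ B := by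
      intro α hα t ht
      have g := hg α hα t ht
      obtain ⟨C, _, hC⟩ := D_bound g
      obtain ⟨d, M, hM⟩ := hu α g.1 g.2.1 j hj.le
      refine ⟨C * (M * (‖α‖ / 2) ^ m j), fun x hx => hC _ _ (d.mul (zd _)) fun z hz => ?_⟩
      rw [norm_mul]
      exact mul_le_mul (hM z hz) (zb g.1 g.2.1 hz (hm j hj) hx) (norm_nonneg _)
        ((norm_nonneg _).trans (hM z hz))
    choose! B hB using this
    refine ⟨∑ α ∈ Z, ∑ t ∈ range (k α), ‖c α t‖ * B α t, fun x hx => ?_⟩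
    refine norm_sum_le_of_le _ fun α hα => norm_sum_le_of_le _ fun t ht => ?_
    rw [norm_mul]
    exact mul_le_mul_of_nonneg_left (hB α hα t (mem_range.1 ht) x hx) (norm_nonneg _)
  choose! B hB using hB1
  obtain ⟨B', hB'⟩ := ((Set.finite_lt_nat N).image B).bddAbove
  have H := core N hN p m μ hp0 hp1 hlow hμ hneg h B'
    (fun j hj x hx => (hB j hj x (by have := hm j hj; omega)).trans (hB' ⟨j, hj, rfl⟩))
    (fun x _ => by
      refine sum_congr rfl fun α hα => sum_congr rfl fun t ht => ?_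
      have ht' := mem_range.1 ht
      have g := hg α hα t ht'
      have dN := (hu α g.1 g.2.1 N le_rfl).1
      have d0 := (hu α g.1 g.2.1 0 hN.le).1
      have e := D_van g (dN.sub_const 1) (zd x) fun i hi => hz α hα i (by omega)
      have e2 := D_sub g (dN.mul (zd x)) (d0.mul (zd x))
      have e3 : (fun z => u p N z * z ^ x - u p 0 z * z ^ x) = fun z => (u p N z - 1) * z ^ x := by
        funext z; simp [u]; ring
      simp only [Pi.mul_apply] at e2
      rw [e3, e] at e2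
      congr 1
      exact sub_eq_zero.1 e2.symm)
    (fun j hj x hx => by
      simp only [h, mul_sum]
      refine hasSum_sum fun α hα => hasSum_sum fun t ht => ?_
      have g := hg α hα t (mem_range.1 ht)
      obtain ⟨d, M, hM⟩ := hu α g.1 g.2.1 j hj.le
      have := (row_rec (hp0 j hj) (hp1 j hj) (hlow j hj) (hm j hj) g.1 g.2.1 g d hM hx).mul_left
        (c α t)
      refine hs_congr this (fun y => ?_) ?_
      · ring
      · simp [u, prod_range_succ])
    (fun j hj => by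
      have hF : F (p j) (m j) = p j (m j) := by
        rw [F, tsum_eq_single (m j)]
        · simp
        · intro y hy
          split_ifs with hy'
          · exact hlow j hj y (by omega)
          · rfl
      have col : ∀ cc < (-m j).toNat, ∑ r ∈ range ((-m j).toNat - cc),
          (F (p j) (m j + r) : ℂ) * h j (m j + (r + cc : ℕ)) = 0 := by
        intro cc hcc
        rw [← hc j hj cc hcc]
        simp only [h, mul_sum]
        rw [sum_comm]
        refine sum_congr rfl fun α hα => ?_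
        rw [sum_comm]
        refine sum_congr rfl fun t ht => ?_
        have g := hg α hα t (mem_range.1 ht)
        have d := (hu α g.1 g.2.1 j hj.le).1
        have ev : phi p m j cc =ᶠ[nhds α] fun s => ∑ r ∈ range ((-m j).toNat - cc),
            (F (p j) (m j + r) : ℂ) * (u p j s * s ^ (m j + (r + cc : ℕ))) := by
          filter_upwards [isOpen_ne.mem_nhds g.1] with s hs
          simp only [phi, w, mul_sum]
          refine sum_congr rfl fun r _ => ?_
          rw [zpow_add₀ hs, zpow_natCast]; ring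
        rw [ev.iteratedDeriv_eq, D_sum g _ (f := fun (r : ℕ) s => (F (p j) (m j + r) : ℂ) *
          (u p j s * s ^ (m j + (r + cc : ℕ)))) (fun r => (d.mul (zd _)).const_mul _), mul_sum]
        refine sum_congr rfl fun r _ => ?_
        rw [iteratedDeriv_const_mul_field]; ring
      have ind : ∀ d cc : ℕ, cc + d = (-m j).toNat → ∀ e : ℕ, cc ≤ e → e < (-m j).toNat →
          h j (m j + e) = 0 := by
        intro d
        induction d with
        | zero => intro cc h1 e h2 h3; omega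
        | succ d ih =>
          intro cc h1 e h2 h3
          rcases h2.eq_or_lt with rfl | h2
          · have := col cc h3
            rw [show (-m j).toNat - cc = d + 1 by omega, sum_range_succ', sum_eq_zero
              (fun r hr => by
                rw [ih (cc + 1) (by omega) (r + 1 + cc) (by omega)
                  (by have := mem_range.1 hr; omega), mul_zero])] at this
            have hne : (p j (m j) : ℂ) ≠ 0 := by exact_mod_cast (hpos j hj).ne'
            simpa [hF, hne] using this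
          · exact ih (cc + 1) (by omega) e h2 h3
      intro x h1 h2
      have := ind _ 0 (zero_add _) (x - m j).toNat (Nat.zero_le _) (by omega)
      rwa [show m j + ((x - m j).toNat : ℤ) = x by omega] at this)
  refine indep Z k c fun n => ?_
  have := H n (Int.natCast_nonneg n)
  simpa [h, u] using this

lemma coeffs (N : ℕ) (hN : 0 < N) (p : ℕ → ℤ → ℝ) (m : ℕ → ℤ) (μ : ℕ → ℝ)
    (hp0 : ∀ j < N, ∀ k, 0 ≤ p j k) (hp1 : ∀ j < N, HasSum (p j) 1)
    (hlow : ∀ j < N, ∀ k < m j, p j k = 0) (hpos : ∀ j < N, 0 < p j (m j))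
    (hm : ∀ j < N, m j ≤ 0)
    (hμ : ∀ j < N, HasSum (fun k : ℤ => (k : ℝ) * p j k) (μ j)) (hneg : ∑ j ∈ range N, μ j < 0)
    (Z : Finset ℂ) (k : ℂ → ℕ)
    (hZ : ∀ α ∈ Z, α ≠ 0 ∧ α ≠ 1 ∧ ‖α‖ ≤ 1 ∧ (‖α‖ = 1 → k α ≤ 1))
    (hz : ∀ α ∈ Z, ∀ t < k α, iteratedDeriv t (fun s => u p N s - 1) α = 0)
    (c : ℂ → ℕ → ℂ) (d : ℂ)
    (hc : ∀ j < N, ∀ cc < (-m j).toNat,
      ∑ α ∈ Z, ∑ t ∈ range (k α), c α t * iteratedDeriv t (phi p m j cc) α
        + d * (nu p m j cc : ℂ) = 0) :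
    (∀ α ∈ Z, ∀ t < k α, c α t = 0) ∧ d = 0 := by
  classical
  have h1Z : (1 : ℂ) ∉ Z := fun h => (hZ 1 h).2.1 rfl
  have hu1 : ∀ j ≤ N, u p j 1 = 1 := by
    intro j hj
    refine prod_eq_one fun l hl => ?_
    have := (Complex.hasSum_ofReal.2 (hp1 l (by have := mem_range.1 hl; omega))).tsum_eq
    simpa [G] using this
  have H := gen N hN p m μ hp0 hp1 hlow hpos hm hμ hneg (insert 1 Z) (Function.update k 1 1)
    (fun α hα t ht => by
      rcases mem_insert.1 hα with rfl | hα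
      · simp at ht
        exact ⟨one_ne_zero, by simp, Or.inl ht⟩
      · obtain ⟨a, b, e, f⟩ := hZ α hα
        rw [Function.update_of_ne b] at ht
        refine ⟨a, e, ?_⟩
        rcases e.eq_or_lt with e | e
        · left; have := f e; omega
        · right; exact e)
    (fun α hα t ht => by
      rcases mem_insert.1 hα with rfl | hα
      · simp at ht
        subst ht
        simp [hu1 N le_rfl]
      · rw [Function.update_of_ne (hZ α hα).2.1] at ht
        exact hz α hα t ht)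
    (Function.update c 1 fun _ => d)
    (fun j hj cc hcc => by
      rw [sum_insert h1Z, ← hc j hj cc hcc, add_comm]
      congr 1
      · refine sum_congr rfl fun α hα => ?_
        rw [Function.update_of_ne (hZ α hα).2.1, Function.update_of_ne (hZ α hα).2.1]
      · simp [phi, w, nu, hu1 j hj.le])
  refine ⟨fun α hα t ht => ?_, ?_⟩
  · have := H α (mem_insert_of_mem hα) t (by rwa [Function.update_of_ne (hZ α hα).2.1])
    rwa [Function.update_of_ne (hZ α hα).2.1] at this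
  · simpa using H 1 (mem_insert_self _ _) 0 (by simp)

open Classical in
/-- The rows of `A` are linearly independent, and `A` has nonzero determinant under every
matching of its rows with its columns. -/
theorem result (N : ℕ) (hN : 0 < N) (p : ℕ → ℤ → ℝ) (m : ℕ → ℤ) (μ : ℕ → ℝ)
    (hp0 : ∀ j < N, ∀ k, 0 ≤ p j k) (hp1 : ∀ j < N, HasSum (p j) 1)
    (hlow : ∀ j < N, ∀ k < m j, p j k = 0) (hpos : ∀ j < N, 0 < p j (m j))
    (hm : ∀ j < N, m j ≤ 0)
    (hμ : ∀ j < N, HasSum (fun k : ℤ => (k : ℝ) * p j k) (μ j)) (hneg : ∑ j ∈ range N, μ j < 0)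
    (Z : Finset ℂ) (k : ℂ → ℕ)
    (hZ : ∀ α ∈ Z, α ≠ 0 ∧ α ≠ 1 ∧ ‖α‖ ≤ 1 ∧ (‖α‖ = 1 → k α ≤ 1))
    (hz : ∀ α ∈ Z, ∀ t < k α, iteratedDeriv t (fun s => u p N s - 1) α = 0) :
    LinearIndependent ℂ (A N p m Z k).row ∧
      ∀ e : Cols N m ≃ Rows Z k, ((A N p m Z k).submatrix e id).det ≠ 0 := by
  have hli : LinearIndependent ℂ (A N p m Z k).row := by
    rw [Fintype.linearIndependent_iff]
    intro g hg
    let c : ℂ → ℕ → ℂ := fun α t =>
      if h : α ∈ Z ∧ t < k α then g (some ⟨⟨α, h.1⟩, ⟨t, h.2⟩⟩) else 0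
    have H := coeffs N hN p m μ hp0 hp1 hlow hpos hm hμ hneg Z k hZ hz c (g none)
      (fun j hj cc hcc => by
        have := congrFun hg ⟨⟨j, hj⟩, ⟨cc, hcc⟩⟩
        rw [Finset.sum_apply, Fintype.sum_option, Fintype.sum_sigma, add_comm] at this
        rw [← sum_coe_sort Z]
        refine Eq.trans ?_ this
        congr 1
        refine sum_congr rfl fun α _ => ?_
        rw [← Fin.sum_univ_eq_sum_range (fun t => c α t * iteratedDeriv t (phi p m j cc) α)]
        refine sum_congr rfl fun t _ => ?_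
        have : c α t = g (some ⟨α, t⟩) := dif_pos ⟨α.2, t.2⟩
        rw [this]; rfl)
    rintro (_ | ⟨α, t⟩)
    · exact H.2
    · have := H.1 α α.2 t t.2
      rwa [show c α t = g (some ⟨α, t⟩) from dif_pos ⟨α.2, t.2⟩] at this
  refine ⟨hli, fun e => ?_⟩
  have : LinearIndependent ℂ ((A N p m Z k).submatrix e id).row := hli.comp e e.injective
  exact ((Matrix.isUnit_iff_isUnit_det _).1 (Matrix.linearIndependent_rows_iff_isUnit.1 this)).ne_zero

end Pool.Agent.Results.MP_432bca_pr.Nonsingular
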